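import Pool.Agent.Run7.h420.TM.Stm

set_option autoImplicit false

namespace Pool.Agent.Run7.h420.TM

open MeasureTheory Filter Topology Set

theorem t_NAD : S_NAD := by
  intro G Y _ _ _ _ _ m c hm hsm hinv hc hinj hcorb hz
  letI : Encodable G := Encodable.ofCountable G
  have hE : ∀ g : G, MeasurableSet {y : Y | c y = g • y} := by
    intro g
    letI := upgradeStandardBorel Y
    exact (hc.prodMk (hsm g)) isClosed_diagonal.measurableSet
  let T : G → Set Y := fun g => {y | c y = g • y ∧ ∀ k : G, Encodable.encode k < Encodable.encode g →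
    ¬ (c y = k • y)}
  have hTm : ∀ g, MeasurableSet (T g) := by
    intro g
    have : T g = {y : Y | c y = g • y} ∩ ⋂ (k : G) (_ : Encodable.encode k < Encodable.encode g),
        {y : Y | c y = k • y}ᶜ := by
      ext y
      simp only [T, mem_setOf_eq, mem_inter_iff, mem_iInter, mem_compl_iff]
    rw [this]
    exact (hE g).inter (MeasurableSet.iInter fun k => MeasurableSet.iInter fun _ => (hE k).compl)
  have hTu : (⋃ g, T g) = univ := by
    rw [eq_univ_iff_forall]
    intro y
    have hex : ∃ n : ℕ, ∃ g : G, Encodable.encode g = n ∧ c y = g • y := by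
      obtain ⟨g, hg⟩ := hcorb y
      exact ⟨_, g, rfl, hg.symm⟩
    classical
    obtain ⟨g, hg1, hg2⟩ := Nat.find_spec hex
    refine mem_iUnion.2 ⟨g, hg2, ?_⟩
    intro k hk hck
    rw [hg1] at hk
    exact Nat.find_min hex hk ⟨k, rfl, hck⟩
  have hTd : Pairwise (Function.onFun Disjoint T) := by
    intro g k hgk
    rw [Function.onFun, Set.disjoint_left]
    rintro y ⟨h1, h2⟩ ⟨h3, h4⟩
    rcases lt_trichotomy (Encodable.encode g) (Encodable.encode k) with h | h | h
    · exact h4 g h h1
    · exact hgk (Encodable.encode_injective h)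
    · exact h2 k h h3
  have himg : ∀ g, c '' T g = (fun y : Y => g⁻¹ • y) ⁻¹' T g := by
    intro g
    ext y
    constructor
    · rintro ⟨x, hx, rfl⟩
      show g⁻¹ • c x ∈ T g
      rw [hx.1, inv_smul_smul]
      exact hx
    · intro hy
      refine ⟨g⁻¹ • y, hy, ?_⟩
      rw [hy.1, smul_inv_smul]
  have hrange : range c = ⋃ g, c '' T g := by
    rw [← image_iUnion, hTu, image_univ]
  have hmr : MeasurableSet (range c) := by
    rw [hrange]
    refine MeasurableSet.iUnion fun g => ?_
    rw [himg]
    exact hsm g⁻¹ (hTm g)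
  have h1 : m (range c) = 1 := by
    rw [hrange, measure_iUnion]
    · have : ∀ g, m (c '' T g) = m (T g) := fun g => by
        rw [himg, hinv g⁻¹ _ (hTm g)]
      simp_rw [this]
      rw [← measure_iUnion hTd hTm, hTu]
      exact measure_univ
    · intro g k hgk
      exact (disjoint_image_iff hinj).2 (hTd hgk)
    · intro g
      rw [himg]
      exact hsm g⁻¹ (hTm g)
  have h0 : m (range c)ᶜ = 0 := by
    rw [prob_compl_eq_zero_iff hmr]
    exact h1
  have hcov : (univ : Set Y) ⊆ ⋃ g : G, (fun y : Y => g • y) ⁻¹' (range c)ᶜ := by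
    intro y _
    obtain ⟨z, ⟨g, hg⟩, hzc⟩ := hz y
    refine mem_iUnion.2 ⟨g, ?_⟩
    show g • y ∈ (range c)ᶜ
    rintro ⟨w, hw⟩
    exact hzc w (hw.trans hg)
  have h2 : m (univ : Set Y) = 0 := by
    refine measure_mono_null hcov ?_
    rw [measure_iUnion_null_iff]
    intro g
    rw [hinv g _ hmr.compl]
    exact h0
  rw [measure_univ] at h2
  exact one_ne_zero h2

end Pool.Agent.Run7.h420.TM
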