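import Pool.Agent.Run7.h420.TM.Stm

set_option autoImplicit false

namespace Pool.Agent.Run7.h420.TM

open MeasureTheory Filter Topology Set

theorem t_STABA : S_FG → S_ERG → S_STABA := by
  intro hFG hERG G X Y _ _ _ _ _ _ _ _ μ f X0 hsmall hS
  have hne : ∀ y : Y, MulAction.stabilizer G y ≠ ⊤ := by
    intro y htop
    refine hS.inf y ((Set.finite_singleton y).subset ?_)
    rintro z ⟨g, rfl⟩
    have : g ∈ MulAction.stabilizer G y := by rw [htop]; trivial
    exact this
  have hE : ∀ g : G, MeasurableSet {y : Y | g • y = y} := by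
    intro g
    letI := upgradeStandardBorel Y
    exact ((hS.smulY g).prodMk measurable_id) isClosed_diagonal.measurableSet
  have hstab : ∀ K : Subgroup G, MeasurableSet {y : Y | MulAction.stabilizer G y = K} := by
    intro K
    have : {y : Y | MulAction.stabilizer G y = K} = ⋂ g : G, {y : Y | g • y = y ↔ g ∈ K} := by
      ext y
      rw [mem_iInter]
      constructor
      · intro h g
        show g • y = y ↔ g ∈ K
        have h' : MulAction.stabilizer G y = K := h
        rw [← h', MulAction.mem_stabilizer_iff]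
      · intro h
        show MulAction.stabilizer G y = K
        ext g
        rw [MulAction.mem_stabilizer_iff]
        exact h g
    rw [this]
    refine MeasurableSet.iInter fun g => ?_
    by_cases hg : g ∈ K
    · have : {y : Y | g • y = y ↔ g ∈ K} = {y : Y | g • y = y} := by
        ext y
        show (g • y = y ↔ g ∈ K) ↔ g • y = y
        simp [hg]
      rw [this]
      exact hE g
    · have : {y : Y | g • y = y ↔ g ∈ K} = {y : Y | g • y = y}ᶜ := by
        ext y
        show (g • y = y ↔ g ∈ K) ↔ ¬ (g • y = y)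
        simp [hg]
      rw [this]
      exact (hE g).compl
  let A : Finset G → Set X := fun F => X0 ∩ ⋃ h : G, {x | MulAction.stabilizer G (h • f x) =
    Subgroup.closure (F : Set G)}
  have hAm : ∀ F, MeasurableSet (A F) := by
    intro F
    refine hS.X0meas.inter (MeasurableSet.iUnion fun h => ?_)
    exact ((hS.smulY h).comp hS.fmeas) (hstab _)
  have hae : ∀ᵐ x ∂μ, x ∈ X0 := by
    rw [ae_iff]
    exact hS.X0null
  have hAinv : ∀ F, ∀ g : G, ∀ x ∈ X0, (g • x ∈ A F ↔ x ∈ A F) := by
    intro F g x hx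
    have hgx : g • x ∈ X0 := hS.X0inv g x hx
    obtain ⟨k, hk⟩ := (hS.red x hx (g • x) hgx).1 ⟨g, rfl⟩
    have hk' : k • f x = f (g • x) := hk
    constructor
    · rintro ⟨_, h2⟩
      obtain ⟨h, hh⟩ := mem_iUnion.1 h2
      refine ⟨hx, mem_iUnion.2 ⟨h * k, ?_⟩⟩
      show MulAction.stabilizer G ((h * k) • f x) = _
      rw [mul_smul, hk']
      exact hh
    · rintro ⟨_, h2⟩
      obtain ⟨h, hh⟩ := mem_iUnion.1 h2
      refine ⟨hgx, mem_iUnion.2 ⟨h * k⁻¹, ?_⟩⟩
      show MulAction.stabilizer G ((h * k⁻¹) • f (g • x)) = _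
      rw [mul_smul, ← hk', inv_smul_smul]
      exact hh
  have h01 : ∀ F, μ (A F) = 0 ∨ μ (A F) = 1 := by
    intro F
    refine hERG G X μ univ (A F) hS.mix Set.infinite_univ (hAm F) ?_
    intro g _
    filter_upwards [hae] with x hx
    exact hAinv F g x hx
  have hprob := hS.mix.prob
  have hcov : X0 ⊆ ⋃ F : Finset G, A F := by
    intro x hx
    obtain ⟨F, hF⟩ := hFG G hsmall _ (hne (f x))
    refine mem_iUnion.2 ⟨F, hx, mem_iUnion.2 ⟨1, ?_⟩⟩
    show MulAction.stabilizer G ((1 : G) • f x) = _
    rw [one_smul, hF]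
  have hex : ∃ F, μ (A F) = 1 := by
    by_contra hcon
    push Not at hcon
    have h0 : ∀ F, μ (A F) = 0 := fun F => (h01 F).resolve_right (hcon F)
    have h1 : μ X0 = 0 := measure_mono_null hcov (measure_iUnion_null_iff.2 h0)
    have h2 : μ (univ : Set X) = 0 := by
      rw [← Set.union_compl_self X0]
      exact measure_union_null h1 hS.X0null
    rw [measure_univ] at h2
    exact one_ne_zero h2
  obtain ⟨F, hF⟩ := hex
  have haeF : ∀ᵐ x ∂μ, x ∈ A F := by
    rw [ae_iff]
    exact (prob_compl_eq_zero_iff (hAm F)).2 hF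
  refine ⟨Subgroup.closure (F : Set G), ?_, ?_⟩
  · have hnonempty : (A F).Nonempty := by
      rw [Set.nonempty_iff_ne_empty]
      intro h
      rw [h, measure_empty] at hF
      exact zero_ne_one hF
    obtain ⟨x, _, hx⟩ := hnonempty
    obtain ⟨h, hh⟩ := mem_iUnion.1 hx
    intro htop
    have hh' : MulAction.stabilizer G (h • f x) = Subgroup.closure (F : Set G) := hh
    exact hne _ (hh'.trans htop)
  · filter_upwards [haeF] with x hx
    obtain ⟨h, hh⟩ := mem_iUnion.1 hx.2
    exact ⟨h, hh⟩

end Pool.Agent.Run7.h420.TM
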